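import Pool.Agent.K3h16.SF.Stm

set_option autoImplicit false

open CategoryTheory Limits MonoidalCategory
open Pool.Agent.Y112.KD Pool.Agent.R905
open Pool.Agent.TH829.Kim (K)

namespace Pool.Agent.K3h13.SF

open Pool.Agent.K3h16.SF

universe v u

section

variable {C : Type u} [Category.{v} C] [MonoidalCategory C]

lemma Dn_const [SymmetricCategory C] [Preadditive C] [Linear ℚ C] [MonoidalPreadditive C]
    [MonoidalLinear ℚ C] {X : C} (f : X ⟶ X) (n : ℕ) :
    Dn n (fun _ => f) = tpm f n := by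
  induction n with
  | zero => rfl
  | succ n ih =>
    rw [Dn_succ, ih]
    rfl

end

theorem t_KREL : S_KREL.{v, u} := by
  intro C _ _ _ _ _ _ _ _ hU η hη M f n h
  rcases n with _ | l
  · exfalso
    have h1 := h (𝟙_ C) (𝟙 _) (fun s hs => by cases hs)
    apply hU.ne
    simpa [tpm] using h1
  · refine ⟨l, ?_⟩
    have h1 : tpm f (l + 1) ≫ asym η M (l + 1) = 0 :=
      h _ _ (fun s hs => (swap_asym hη M hs).1)
    rw [← cc_gg hU hη]
    have h2 : gg η (l + 1) (fun _ => (f : End M)) = 0 := by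
      rw [gg]
      have h3 : Dn (l + 1) (fun _ : Fin (l + 1) => (f : M ⟶ M)) ≫ asym η M (l + 1) = 0 := by
        rw [Dn_const, h1]
      have h4 : Dn (l + 1) (fun i : Fin (l + 1) => ((fun _ => (f : End M)) i : M ⟶ M)) ≫
          asym η M (l + 1) = 0 := h3
      rw [h4, smul_zero]
    rw [h2, map_zero]

end Pool.Agent.K3h13.SF
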